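import Pool.Agent.H96.JCT.Stmts

/-!
Row FL1: the jump, without `a < b`.
-/

namespace Pool.JCT

open Complex Set Topology Filter

theorem fl1_thm (h1 : ADD_S) (h2 : FLA_S) : FL1_S := by
  intro Φ U f a b s hU hf hinj hsub hs hfs hΦ haxis
  rcases hs with ⟨has, hsb⟩ | ⟨hbs, hsa⟩
  · have hab : a ≤ b := (has.trans hsb).le
    rw [uIcc_of_le hab] at hsub
    exact h2 Φ U f a b s hU hf hinj hsub has hsb hfs hΦ haxis
  · have hba : b ≤ a := (hbs.trans hsa).le
    rw [uIcc_of_ge hba] at hsub
    obtain ⟨D, hD, h3⟩ := h2 Φ U f b a s hU hf hinj hsub hbs hsa hfs hΦ haxis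
    refine ⟨-D, ?_, ?_⟩
    · rcases hD with hD | hD
      · right; rw [hD]
      · left; rw [hD]; norm_num
    · intro η hη
      obtain ⟨N, hN, h4⟩ := h3 η hη
      refine ⟨N, hN, fun p hp q hq hp2 hq2 => ?_⟩
      obtain ⟨h5, h6, h7⟩ := h4 p hp q hq hp2 hq2
      have h5' : Off f a b p := by
        intro t ht
        rw [uIcc_comm] at ht
        exact h5 t ht
      have h6' : Off f a b q := by
        intro t ht
        rw [uIcc_comm] at ht
        exact h6 t ht
      refine ⟨h5', h6', ?_⟩
      have h8 := (h1 f p hf).2.1 b a h5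
      have h9 := (h1 f q hf).2.1 b a h6
      have h10 : inc f a b p - inc f a b q - ((-D : ℤ) : ℂ) * tpi =
          -(inc f b a p - inc f b a q - (D : ℂ) * tpi) := by
        rw [h8, h9]
        push_cast
        ring
      rw [h10, norm_neg]
      exact h7

end Pool.JCT
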